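import Pool.Agent.ASE.Stmts3
import Pool.Agent.Helper79_ASD.FCD
import Pool.Agent.Helper94_PP.LemQ

/-!
# Squad ASE, row CZB: central elements of the local blocks (helper97)
-/

open scoped BigOperators

noncomputable section

namespace Pool.Agent.PP.SE.H97

open Pool.Agent.Helper51_AWC Pool.Agent.Helper79_WRA Pool.Agent.PP Pool.Agent.PP.KF
open Pool.Agent.PP.K9 Pool.Agent.PP.K9.H97 Pool.Agent.PP.H75 Pool.Agent.PP.T3 Pool.Agent.PP.SO
open Pool.Agent.PP.SD

attribute [local instance] Ideal.Quotient.field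

/-- a class function is the sum of its components -/
theorem cls_exp {H : Type} [Group H] [Fintype H] {a : H → ℂ}
    (ha : ∀ x y, a (y * x * y⁻¹) = a x) {S : Set (H → ℂ)} (hS : S.Finite) (hSI : S ⊆ Irr H)
    (h0 : ∀ ψ ∈ Irr H, ψ ∉ S → H50.om a ψ = 0) (g : H) :
    a g = ∑ ψ ∈ hS.toFinset, H50.om a ψ * (ψ 1 / Fintype.card H) * ψ g⁻¹ := by
  classical
  have hc : (Fintype.card H : ℂ) ≠ 0 := by exact_mod_cast Fintype.card_ne_zero
  suffices h : (fun g => a g - ∑ ψ ∈ hS.toFinset, H50.om a ψ * (ψ 1 / Fintype.card H) * ψ g⁻¹)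
      = 0 from sub_eq_zero.1 (congrFun h g)
  apply irr_complete
  · intro x y
    show a (y * x * y⁻¹) - _ = a x - _
    rw [ha]
    congr 1
    refine Finset.sum_congr rfl fun ψ hψ => ?_
    have e : (y * x * y⁻¹)⁻¹ = y * x⁻¹ * y⁻¹ := by group
    rw [e, irr_conj (hSI (hS.mem_toFinset.1 hψ))]
  · intro χ hχ
    have e1 : ∑ t, a t * χ t = H50.om a χ * χ 1 := by
      rw [H50.om, div_mul_cancel₀ _ (irr_one_ne hχ)]
    simp_rw [sub_mul, Finset.sum_sub_distrib, Finset.sum_mul]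
    rw [e1, Finset.sum_comm]
    have e2 : ∀ ψ ∈ hS.toFinset, ∑ t, H50.om a ψ * (ψ 1 / Fintype.card H) * ψ t⁻¹ * χ t =
        if ψ = χ then H50.om a χ * χ 1 else 0 := by
      intro ψ hψ
      have hψI := hSI (hS.mem_toFinset.1 hψ)
      have e3 : ∑ t, H50.om a ψ * (ψ 1 / Fintype.card H) * ψ t⁻¹ * χ t =
          H50.om a ψ * (ψ 1 / Fintype.card H) * ∑ t, χ t * ψ t⁻¹ := by
        rw [Finset.mul_sum]
        exact Finset.sum_congr rfl fun t _ => by ring
      rw [e3]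
      split_ifs with h
      · subst h
        rw [irr_orth_self hψI]
        field_simp
      · rw [irr_orth_ne hχ hψI (fun h' => h h'.symm), mul_zero]
    rw [Finset.sum_congr rfl e2, Finset.sum_ite_eq']
    split_ifs with h
    · exact sub_self _
    · rw [h0 χ hχ (fun h' => h (hS.mem_toFinset.2 h'))]
      ring

section

variable {V₀ G : Type} [CommGroup V₀] [Group G] [Finite G] {M : Ideal (integralClosure ℤ ℂ)}
  [M.IsMaximal] (B : Bk (FF M) V₀ G) (W : Subgroup V₀)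

omit [M.IsMaximal] in
/-- `cv` as a central character of the centraliser -/
theorem cv_om [Fintype (B.C W)] {a : G → ℂ} (ha : ∀ g, g ∉ B.C W → a g = 0) (χ : G → ℂ) :
    cv a χ = H50.om (fun t : B.C W => a t) (fun t : B.C W => χ t) := by
  unfold SO.cv H50.om
  rw [sum_sub (B.C W) _ (fun x hx => by rw [ha x hx, zero_mul]), finsum_eq_sum_of_fintype]
  rfl

omit [M.IsMaximal] in
theorem ch_eq : Ch B W = (H75.ext0 (B.C W)) '' (IrrE M (fun t : B.C W => B.b W t)) := by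
  ext χ
  constructor
  · rintro ⟨h1, h2⟩
    refine ⟨_, h2, ?_⟩
    funext x
    by_cases hx : x ∈ B.C W
    · exact H75.ext0_apply (B.C W) (fun t : B.C W => χ t) ⟨x, hx⟩
    · rw [H75.ext0_supp _ _ x hx, h1 x hx]
  · rintro ⟨ψ, h, rfl⟩
    refine ⟨H75.ext0_supp _ _, ?_⟩
    have e : (fun t : B.C W => H75.ext0 (B.C W) ψ t) = ψ := funext (H75.ext0_apply _ _)
    rw [e]
    exact h

omit [M.IsMaximal] in
theorem ext0_inj : Function.Injective (H75.ext0 (F := ℂ) (B.C W)) := by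
  intro a b h
  funext t
  have := congrFun h t
  rwa [H75.ext0_apply, H75.ext0_apply] at this

theorem ch_fin : (Ch B W).Finite := by
  have hfin : Fintype (B.C W) := Fintype.ofFinite _
  rw [ch_eq]
  exact (H25.irrE_finite M _).image _

/-- the expansion -/
theorem cz_exp {a : G → ℂ} (ha : Cz B W a) (g : G) (hg : g ∈ B.C W) :
    a g = ∑ᶠ χ ∈ Ch B W, cv a χ * (χ 1 / Nat.card (B.C W)) * χ g⁻¹ := by
  classical
  have hfin : Fintype (B.C W) := Fintype.ofFinite _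
  have hS := H25.irrE_finite M (fun t : B.C W => B.b W t)
  have h1 := cls_exp (a := fun t : B.C W => a t) (fun x y => ha.cls y y.2 x) hS
    (fun ψ hψ => hψ.1) (fun ψ hψ hn => by
      have h2 := ha.blk (H75.ext0 (B.C W) ψ) (H75.ext0_supp _ _) (by
        have e : (fun t : B.C W => H75.ext0 (B.C W) ψ t) = ψ := funext (H75.ext0_apply _ _)
        rw [e]
        exact hψ) (fun h => hn (by
        have e : (fun t : B.C W => H75.ext0 (B.C W) ψ t) = ψ := funext (H75.ext0_apply _ _)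
        have h3 := h.2
        rw [e] at h3
        exact h3))
      rw [cv_om B W ha.sup] at h2
      have e : (fun t : B.C W => H75.ext0 (B.C W) ψ t) = ψ := funext (H75.ext0_apply _ _)
      rw [e] at h2
      exact h2) ⟨g, hg⟩
  rw [ch_eq, finsum_mem_image ((ext0_inj B W).injOn), finsum_mem_eq_finite_toFinset_sum _ hS]
  refine h1.trans (Finset.sum_congr rfl fun ψ _ => ?_)
  have e : (fun t : B.C W => H75.ext0 (B.C W) ψ t) = ψ := funext (H75.ext0_apply _ _)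
  rw [cv_om B W ha.sup, e, Nat.card_eq_fintype_card]
  have e1 : H75.ext0 (B.C W) ψ 1 = ψ 1 := H75.ext0_apply (B.C W) ψ 1
  have e2 : H75.ext0 (B.C W) ψ g⁻¹ = ψ (⟨g, hg⟩ : B.C W)⁻¹ :=
    H75.ext0_apply (B.C W) ψ (⟨g, hg⟩ : B.C W)⁻¹
  rw [e1, e2]

omit [Finite G] [M.IsMaximal] in
/-- multiplication with a central element `i(κ)` -/
theorem central_i {χ : G → ℂ} (hs : ∀ g, g ∉ B.C W → χ g = 0)
    (hχ : (fun t : B.C W => χ t) ∈ Irr (B.C W)) {w : V₀} (hw : w ∈ W) (g : G) :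
    χ (B.i w * g) = nu B χ w * χ g := by
  by_cases hg : g ∈ B.C W
  · exact KF.H32.central_mul hχ (SO.H33.jW_cen B W hw) ⟨g, hg⟩
  · rw [hs g hg, mul_zero]
    apply hs
    intro h
    apply hg
    have := (B.C W).mul_mem ((B.C W).inv_mem (SO.H33.i_mem_C B W w)) h
    rwa [inv_mul_cancel_left] at this

omit [M.IsMaximal] in
theorem cv_tk {a χ : G → ℂ} (hs : ∀ g, g ∉ B.C W → χ g = 0)
    (hχ : (fun t : B.C W => χ t) ∈ Irr (B.C W)) {w : V₀} (hw : w ∈ W) :
    cv (tk B w a) χ = nu B χ w * cv a χ := by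
  unfold SO.cv
  rw [← mul_div_assoc]
  congr 1
  have e1 : ∑ᶠ g, tk B w a g * χ g = ∑ᶠ g, a g * χ (B.i w * g) := by
    rw [← finsum_comp_equiv (Equiv.mulLeft (B.i w))]
    refine finsum_congr fun g => ?_
    show a ((B.i w)⁻¹ * (B.i w * g)) * χ (B.i w * g) = _
    rw [inv_mul_cancel_left]
  have := Fintype.ofFinite G
  rw [e1, finsum_eq_sum_of_fintype, finsum_eq_sum_of_fintype, Finset.mul_sum]
  refine Finset.sum_congr rfl fun g _ => ?_
  rw [central_i B W hs hχ hw]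
  ring

omit [M.IsMaximal] in
theorem cz_tk {a : G → ℂ} (ha : Cz B W a) {w : V₀} (hw : w ∈ W) : Cz B W (tk B w a) := by
  refine ⟨fun g hg => ?_, fun z hz g => ?_, fun ψ h1 h2 h3 => ?_⟩
  · apply ha.sup
    intro h
    apply hg
    have := (B.C W).mul_mem (SO.H33.i_mem_C B W w) h
    rwa [mul_inv_cancel_left] at this
  · show a ((B.i w)⁻¹ * (z * g * z⁻¹)) = a ((B.i w)⁻¹ * g)
    have h1 : B.i w * z = z * B.i w := (SO.H33.mem_C B).1 hz w hw
    have h2 : (B.i w)⁻¹ * z = z * (B.i w)⁻¹ := by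
      rw [inv_mul_eq_iff_eq_mul, ← mul_assoc, h1, mul_assoc, mul_inv_cancel, mul_one]
    have h3 : (B.i w)⁻¹ * (z * g * z⁻¹) = z * ((B.i w)⁻¹ * g) * z⁻¹ := by
      rw [← mul_assoc, ← mul_assoc, h2]
      group
    rw [h3, ha.cls z hz]
  · rw [cv_tk B W h1 h2 hw, ha.blk ψ h1 h2 h3, mul_zero]

omit [M.IsMaximal] in
theorem cv_mul {a b χ : G → ℂ} (ha : Cz B W a) (hb : Cz B W b)
    (hχ : (fun t : B.C W => χ t) ∈ Irr (B.C W)) :
    cv (fun g => mulF a b g) χ = cv a χ * cv b χ := by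
  classical
  have hfin : Fintype (B.C W) := Fintype.ofFinite _
  have hsup : ∀ g, g ∉ B.C W → mulF a b g = 0 := mulF_supp (B.C W) ha.sup hb.sup
  rw [cv_om B W hsup, cv_om B W ha.sup, cv_om B W hb.sup]
  rw [← H50.om_mul (a := fun t : B.C W => a t) (fun x y => hb.cls y y.2 x) hχ]
  congr 1
  have h := mulF_res (B.C W) b ha.sup
  rw [h]
  funext y
  unfold mulF
  rw [finsum_eq_sum_of_fintype]

omit [M.IsMaximal] in
theorem cz_mul {a b : G → ℂ} (ha : Cz B W a) (hb : Cz B W b) : Cz B W (fun g => mulF a b g) := by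
  refine ⟨mulF_supp (B.C W) ha.sup hb.sup, fun z hz g => ?_, fun ψ h1 h2 h3 => ?_⟩
  · unfold mulF
    rw [← finsum_comp_equiv (MulAut.conj z).toEquiv]
    refine finsum_congr fun t => ?_
    have e1 : (MulAut.conj z).toEquiv t = z * t * z⁻¹ := rfl
    have e2 : (z * t * z⁻¹)⁻¹ * (z * g * z⁻¹) = z * (t⁻¹ * g) * z⁻¹ := by group
    rw [e1, e2, ha.cls z hz, hb.cls z hz]
  · rw [cv_mul B W ha hb h2, ha.blk ψ h1 h2 h3, zero_mul]

omit [M.IsMaximal] in
theorem cv_lin (a b χ : G → ℂ) (z z' : ℂ) :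
    cv (fun g => z * a g + z' * b g) χ = z * cv a χ + z' * cv b χ := by
  have := Fintype.ofFinite G
  unfold SO.cv
  rw [finsum_eq_sum_of_fintype, finsum_eq_sum_of_fintype, finsum_eq_sum_of_fintype,
    ← mul_div_assoc, ← mul_div_assoc, ← add_div, Finset.mul_sum, Finset.mul_sum,
    ← Finset.sum_add_distrib]
  congr 1
  exact Finset.sum_congr rfl fun g _ => by ring

end

/-- CZB -/
theorem czb (fcd : FcdStmt) : CzbStmt := by
  intro ℓ _ M _ hM _ V₀ G _ _ _ _ E₀ hFq B hB W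
  have hone : ∀ χ ∈ Ch B W, χ 1 ≠ 0 := fun χ hχ =>
    irr_one_ne (χ := fun t : B.C W => χ t) hχ.2.1
  refine ⟨fun c => ⟨SO.H3.fc_supp B W c, fun z hz g => SO.H3.fc_cl B W c ⟨z, hz⟩ g,
      fun ψ h1 h2 h3 => (fcd ℓ M hM V₀ G E₀ hFq B hB W).1 ψ h1 h2 h3 c⟩,
    fun a ha g hg => cz_exp B W ha g hg,
    fun a ha κ hκ => ⟨cz_tk B W ha hκ, fun χ hχ => cv_tk B W hχ.1 hχ.2.1 hκ⟩,
    fun a b ha hb => ⟨cz_mul B W ha hb, fun χ hχ => cv_mul B W ha hb hχ.2.1⟩,
    fun a b ha hb z z' => ⟨⟨fun g hg => ?_, fun x hx g => ?_, fun ψ h1 h2 h3 => ?_⟩,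
      fun χ => cv_lin a b χ z z'⟩,
    fun a b ha hb h => ?_, fun χ hχ => ⟨hone χ hχ, ?_, fun w hw => ⟨?_, fun g => ?_,
      fun w' hw' => ?_⟩, fun g => ?_, fun z hz g => ?_⟩, ch_fin B W⟩
  · rw [ha.sup g hg, hb.sup g hg, mul_zero, mul_zero, add_zero]
  · rw [ha.cls x hx, hb.cls x hx]
  · rw [cv_lin, ha.blk ψ h1 h2 h3, hb.blk ψ h1 h2 h3, mul_zero, mul_zero, add_zero]
  · funext g
    by_cases hg : g ∈ B.C W
    · rw [cz_exp B W ha g hg, cz_exp B W hb g hg]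
      refine finsum_mem_congr rfl fun χ hχ => ?_
      rw [h χ hχ]
    · rw [ha.sup g hg, hb.sup g hg]
  · unfold nu
    rw [map_one, div_self (hone χ hχ)]
  · have h1 : ∀ g ∈ B.C W, starRingEnd ℂ (χ g) = χ g⁻¹ := fun g hg =>
      PP.H94.irr_star hχ.2.1 (⟨g, hg⟩ : B.C W)
    unfold nu
    rw [map_div₀, h1 _ (SO.H33.i_mem_C B W w), h1 _ (B.C W).one_mem, inv_one, map_inv]
  · exact central_i B W hχ.1 hχ.2.1 hw g
  · have h1 := central_i B W hχ.1 hχ.2.1 hw (B.i w')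
    unfold nu at h1 ⊢
    rw [map_mul, h1, mul_div_assoc]
  · by_cases hg : g ∈ B.C W
    · exact (PP.H94.irr_star hχ.2.1 (⟨g, hg⟩ : B.C W)).symm
    · rw [hχ.1 g hg, hχ.1 _ (fun h => hg ((B.C W).inv_mem_iff.1 h)), map_zero]
  · by_cases hg : g ∈ B.C W
    · exact irr_conj hχ.2.1 (⟨g, hg⟩ : B.C W) ⟨z, hz⟩
    · rw [hχ.1 g hg]
      apply hχ.1
      intro h
      apply hg
      have h1 := (B.C W).mul_mem ((B.C W).mul_mem ((B.C W).inv_mem hz) h) hz
      have e : z⁻¹ * (z * g * z⁻¹) * z = g := by group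
      rwa [e] at h1

end Pool.Agent.PP.SE.H97
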