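import Pool.Agent.ASE.Stmts7

/-!
# Squad ASE, row MQB: the relation modulo `ℓ ^ 2` (helper97)
-/

open scoped BigOperators

noncomputable section

namespace Pool.Agent.PP.SE.H97

open Pool.Agent.Helper51_AWC Pool.Agent.Helper79_WRA Pool.Agent.PP Pool.Agent.PP.KF
open Pool.Agent.PP.K9 Pool.Agent.PP.K9.H97 Pool.Agent.PP.H75 Pool.Agent.PP.T3 Pool.Agent.PP.SO
open Pool.Agent.PP.SD

attribute [local instance] Ideal.Quotient.field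

section gg

variable {V₀ : Type} [CommGroup V₀]

/-- the common form of the two expressions -/
def GG (ℓ : ℕ) (E₀ : Subgroup (MulAut V₀)) (X₁ X₂ : V₀ → ℤ) (c d : V₀) (n : ℚ)
    (y y' : Subgroup V₀ → ℚ) (D : MulAut V₀ → ℚ) (Z : MulAut V₀ → Subgroup V₀ → ℚ) : ℚ :=
  (X₁ c * X₂ d : ℤ) * n -
    (∑ᶠ a ∈ {a : Subgroup V₀ | a ∈ RL ℓ E₀ ∧ c ∉ a}, ((X₁ (pr ℓ E₀ a c) * X₂ d : ℤ) : ℚ) * y a) -
    (∑ᶠ b ∈ {b : Subgroup V₀ | b ∈ RL ℓ E₀ ∧ d ∉ b}, ((X₁ c * X₂ (pr ℓ E₀ b d) : ℤ) : ℚ) * y' b) -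
    ∑ᶠ σ ∈ {σ : MulAut V₀ | σ ∈ E₀ ∧ c * σ d ≠ 1},
      (((X₁ (c * σ d) * X₂ (σ⁻¹ (c * σ d)) : ℤ) : ℚ) * D σ -
        ∑ᶠ a ∈ {a : Subgroup V₀ | a ∈ RL ℓ E₀ ∧ c * σ d ∉ a},
          ((X₁ (pr ℓ E₀ a (c * σ d)) * X₂ (σ⁻¹ (pr ℓ E₀ a (c * σ d))) : ℤ) : ℚ) * Z σ a)

variable [Finite V₀]

theorem fin_aut : Finite (MulAut V₀) :=
  Finite.of_injective (fun σ : MulAut V₀ => (σ : V₀ → V₀)) DFunLike.coe_injective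

theorem GG_sub (ℓ : ℕ) (E₀ : Subgroup (MulAut V₀)) (X₁ X₂ : V₀ → ℤ) (c d : V₀) (n n' : ℚ)
    (y y' v v' : Subgroup V₀ → ℚ) (D D' : MulAut V₀ → ℚ) (Z Z' : MulAut V₀ → Subgroup V₀ → ℚ) :
    GG ℓ E₀ X₁ X₂ c d (n - n') (fun a => y a - v a) (fun a => y' a - v' a)
      (fun σ => D σ - D' σ) (fun σ a => Z σ a - Z' σ a) =
    GG ℓ E₀ X₁ X₂ c d n y y' D Z - GG ℓ E₀ X₁ X₂ c d n' v v' D' Z' := by
  have := fin_aut (V₀ := V₀)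
  unfold GG
  simp only [finsum_mem_eq_finite_toFinset_sum _ (Set.toFinite _), mul_sub,
    Finset.sum_sub_distrib]
  ring

/-- the numbers in `ℓ ^ 2 Rl ℓ` -/
def J2 (ℓ : ℕ) [Fact ℓ.Prime] : AddSubgroup ℚ where
  carrier := {x | ∃ q ∈ SOR.Rl ℓ, x = ℓ ^ 2 * q}
  zero_mem' := ⟨0, (SOR.Rl ℓ).zero_mem, by ring⟩
  add_mem' := by
    rintro _ _ ⟨q, hq, rfl⟩ ⟨r, hr, rfl⟩
    exact ⟨q + r, (SOR.Rl ℓ).add_mem hq hr, by ring⟩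
  neg_mem' := by
    rintro _ ⟨q, hq, rfl⟩
    exact ⟨-q, (SOR.Rl ℓ).neg_mem hq, by ring⟩

omit [CommGroup V₀] [Finite V₀] in
theorem J2_mul {ℓ : ℕ} [Fact ℓ.Prime] (k : ℤ) {x : ℚ} (hx : x ∈ J2 ℓ) : (k : ℚ) * x ∈ J2 ℓ := by
  obtain ⟨q, hq, rfl⟩ := hx
  exact ⟨k * q, (SOR.Rl ℓ).mul_mem (intCast_mem _ k) hq, by ring⟩

theorem GG_mem {ℓ : ℕ} [Fact ℓ.Prime] (E₀ : Subgroup (MulAut V₀)) (X₁ X₂ : V₀ → ℤ) (c d : V₀)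
    (D : MulAut V₀ → ℚ) (Z : MulAut V₀ → Subgroup V₀ → ℚ)
    (hD : ∀ σ ∈ E₀, c * σ d ≠ 1 → D σ ∈ J2 ℓ)
    (hZ : ∀ σ ∈ E₀, c * σ d ≠ 1 → ∀ a ∈ RL ℓ E₀, c * σ d ∉ a → Z σ a ∈ J2 ℓ) :
    GG ℓ E₀ X₁ X₂ c d 0 (fun _ => 0) (fun _ => 0) D Z ∈ J2 ℓ := by
  have := fin_aut (V₀ := V₀)
  unfold GG
  simp only [finsum_mem_eq_finite_toFinset_sum _ (Set.toFinite _), mul_zero,
    Finset.sum_const_zero, sub_zero, zero_sub]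
  refine (J2 ℓ).neg_mem (AddSubgroup.sum_mem _ fun σ hσ => ?_)
  rw [Set.Finite.mem_toFinset] at hσ
  refine (J2 ℓ).sub_mem (J2_mul _ (hD σ hσ.1 hσ.2)) (AddSubgroup.sum_mem _ fun a ha => ?_)
  rw [Set.Finite.mem_toFinset] at ha
  exact J2_mul _ (hZ σ hσ.1 hσ.2 a ha.1 ha.2)

/-- the lift at the inverse -/
theorem lf_inv {ℓ : ℕ} [Fact ℓ.Prime] {ρ : V₀ → ZMod ℓ} (hρ : Hm ρ) (v : V₀) :
    lf (fun v => ρ v⁻¹) 1 v⁻¹ = ((ρ v).val : ℤ) := by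
  have h1 : ρ 1 = 0 := by
    have := hρ 1 1
    rw [mul_one] at this
    exact left_eq_add.1 this
  simp only [lf, inv_inv]
  rw [if_neg, add_zero]
  rintro ⟨h, h'⟩
  rw [inv_eq_one] at h
  subst h
  exact h' (by rw [inv_inv]; exact h1)

theorem MQ_eq {ℓ : ℕ} [Fact ℓ.Prime] (E₀ : Subgroup (MulAut V₀)) (U : Subgroup V₀ → ℚ) (d₁ : V₀ → ℚ)
    (n₁ : V₀ → V₀ → ℚ) (z₁ : Subgroup V₀ → V₀ → ℚ) (y₁ : Subgroup V₀ → V₀ → V₀ → ℚ)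
    {ρ₁ ρ₂ : V₀ → ZMod ℓ} (h₁ : Hm ρ₁) (h₂ : Hm ρ₂) (c d : V₀) :
    (ℓ : ℚ) ^ 2 * MQ ℓ E₀ U d₁ n₁ z₁ y₁ (lf (fun v => ρ₁ v⁻¹) 1) (lf (fun v => ρ₂ v⁻¹) 1) c d =
    GG ℓ E₀ (fun v => ((ρ₁ v).val : ℤ)) (fun v => ((ρ₂ v).val : ℤ)) c d (n₁ c d)
      (fun a => y₁ a (pr ℓ E₀ a c) d) (fun b => y₁ b (pr ℓ E₀ b d) c)
      (fun σ => cS U c d σ (Subgroup.zpowers (c * σ d)) * d₁ (c * σ d))
      (fun σ a => cS U c d σ a * z₁ a (pr ℓ E₀ a (c * σ d))) := by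
  have := fin_aut (V₀ := V₀)
  have hl : (ℓ : ℚ) ≠ 0 := Nat.cast_ne_zero.2 (Fact.out : ℓ.Prime).ne_zero
  unfold MQ GG
  simp only [lf_inv h₁, lf_inv h₂, finsum_mem_eq_finite_toFinset_sum _ (Set.toFinite _), mul_sub,
    Finset.mul_sum]
  congr 1
  · congr 1
    · congr 1
      · field_simp
      · exact Finset.sum_congr rfl fun a _ => by field_simp
    · exact Finset.sum_congr rfl fun a _ => by field_simp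
  · refine Finset.sum_congr rfl fun σ _ => ?_
    congr 1
    · field_simp
    · exact Finset.sum_congr rfl fun a _ => by field_simp

end gg

/-- MQB -/
theorem mqb (prb : PrbStmt) (csb : CsbStmt) : MqbStmt := by
  intro ℓ _ M _ V₀ G G' _ _ _ _ _ _ E₀ hq0 B D B' D' hR hR' hU d₁ d₁' n₁ n₁' z₁ z₁' y₁ y₁' hE hE'
    hd ρ₁ ρ₂ h₁ h₂ c d hc hd1 hM
  have hbot : ∀ a ∈ RL ℓ E₀, a ≠ ⊥ := by
    rintro a ⟨h, -⟩ rfl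
    rw [Subgroup.card_bot] at h
    exact (Fact.out : ℓ.Prime).one_lt.ne h
  have hcs : ∀ W : Subgroup V₀, W ≠ ⊥ → ∀ σ : MulAut V₀,
      (∃ q ∈ SOR.Rl ℓ, cS D.U c d σ W = 1 + ℓ * q) ∧
      (∃ q ∈ SOR.Rl ℓ, cS D'.U c d σ W = 1 + ℓ * q) ∧
      ∃ q ∈ SOR.Rl ℓ, cS D.U c d σ W - cS D'.U c d σ W = ℓ ^ 2 * q := by
    intro W hW σ
    have h1 := csb ℓ V₀ D.U D'.U W 2 (hR.u1 W hW) (hR'.u1 W hW) (hU W hW) c d σ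
    have h2 := csb ℓ V₀ D'.U D.U W 0 (hR'.u1 W hW) (hR.u1 W hW) (by
      obtain ⟨q, hq, e⟩ := hR.u1 W hW
      obtain ⟨q', hq', e'⟩ := hR'.u1 W hW
      refine ⟨D'.U W - D.U W, ?_, by rw [pow_zero, one_mul]⟩
      rw [e, e']
      exact (SOR.Rl ℓ).sub_mem ((SOR.Rl ℓ).add_mem (SOR.Rl ℓ).one_mem
        ((SOR.Rl ℓ).mul_mem (natCast_mem _ ℓ) hq')) ((SOR.Rl ℓ).add_mem (SOR.Rl ℓ).one_mem
        ((SOR.Rl ℓ).mul_mem (natCast_mem _ ℓ) hq))) c d σ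
    exact ⟨h1.1, h2.1, h1.2⟩
  obtain ⟨q₀, hq₀, e₀⟩ : ∃ q ∈ SOR.Rl ℓ,
      MQ ℓ E₀ D.U d₁ n₁ z₁ y₁ (lf (fun v => ρ₁ v⁻¹) 1) (lf (fun v => ρ₂ v⁻¹) 1) c d -
      MQ ℓ E₀ D'.U d₁' n₁' z₁' y₁' (lf (fun v => ρ₁ v⁻¹) 1) (lf (fun v => ρ₂ v⁻¹) 1) c d = q :=
    ⟨_, hM, rfl⟩
  have hT : (ℓ : ℚ) ^ 2 * q₀ ∈ J2 ℓ := ⟨q₀, hq₀, rfl⟩
  rw [← e₀, mul_sub, MQ_eq E₀ D.U d₁ n₁ z₁ y₁ h₁ h₂ c d, MQ_eq E₀ D'.U d₁' n₁' z₁' y₁' h₁ h₂ c d,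
    ← GG_sub] at hT
  change RNE ℓ E₀ (fun c => d₁ c - d₁' c) (fun c d => n₁ c d - n₁' c d)
    (fun a => z₁ a 1 - z₁' a 1) (fun a κ d => y₁ a κ d - y₁' a κ d)
    (fun v => ((ρ₁ v).val : ℤ)) (fun v => ((ρ₂ v).val : ℤ)) c d ∈ J2 ℓ
  have e1 : RNE ℓ E₀ (fun c => d₁ c - d₁' c) (fun c d => n₁ c d - n₁' c d)
    (fun a => z₁ a 1 - z₁' a 1) (fun a κ d => y₁ a κ d - y₁' a κ d)
    (fun v => ((ρ₁ v).val : ℤ)) (fun v => ((ρ₂ v).val : ℤ)) c d =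
    GG ℓ E₀ (fun v => ((ρ₁ v).val : ℤ)) (fun v => ((ρ₂ v).val : ℤ)) c d (n₁ c d - n₁' c d)
      (fun a => y₁ a (pr ℓ E₀ a c) d - y₁' a (pr ℓ E₀ a c) d)
      (fun b => y₁ b (pr ℓ E₀ b d) c - y₁' b (pr ℓ E₀ b d) c)
      (fun σ => d₁ (c * σ d) - d₁' (c * σ d)) (fun σ a => z₁ a 1 - z₁' a 1) := rfl
  rw [e1]
  have key := GG_mem (ℓ := ℓ) E₀ (fun v => ((ρ₁ v).val : ℤ)) (fun v => ((ρ₂ v).val : ℤ)) c d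
    (fun σ => (d₁ (c * σ d) - d₁' (c * σ d)) -
      (cS D.U c d σ (Subgroup.zpowers (c * σ d)) * d₁ (c * σ d) -
        cS D'.U c d σ (Subgroup.zpowers (c * σ d)) * d₁' (c * σ d)))
    (fun σ a => (z₁ a 1 - z₁' a 1) - (cS D.U c d σ a * z₁ a (pr ℓ E₀ a (c * σ d)) -
      cS D'.U c d σ a * z₁' a (pr ℓ E₀ a (c * σ d)))) (by
      intro σ hσ hκ
      obtain ⟨⟨q, hq, e⟩, ⟨q', hq', e'⟩, ⟨r, hr, er⟩⟩ := hcs (Subgroup.zpowers (c * σ d))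
        (fun h => hκ (Subgroup.zpowers_eq_bot.1 h)) σ
      obtain ⟨s, hs, es⟩ := hd (c * σ d) hκ
      refine ⟨-(q * s + r * d₁' (c * σ d)), (SOR.Rl ℓ).neg_mem ((SOR.Rl ℓ).add_mem
        ((SOR.Rl ℓ).mul_mem hq hs) ((SOR.Rl ℓ).mul_mem hr (hE'.dr _))), ?_⟩
      have e2 : cS D'.U c d σ (Subgroup.zpowers (c * σ d)) =
          cS D.U c d σ (Subgroup.zpowers (c * σ d)) - ℓ ^ 2 * r := by rw [← er]; ring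
      have e3 : d₁ (c * σ d) = d₁' (c * σ d) + ℓ * s := by rw [← es]; ring
      rw [e2, e, e3]
      ring) (by
      intro σ hσ hκ a ha hκa
      obtain ⟨⟨q, hq, e⟩, ⟨q', hq', e'⟩, -⟩ := hcs a (hbot a ha) σ
      have hpr : pr ℓ E₀ a (c * σ d) ∈ a := (prb ℓ V₀ E₀ hq0 a).2.2.2.2.1 ha _
      obtain ⟨r, hr, er⟩ := hE.zr a ha _ hpr
      obtain ⟨r', hr', er'⟩ := hE'.zr a ha _ hpr
      obtain ⟨s, hs, es⟩ := hE.zz a ha _ hpr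
      obtain ⟨s', hs', es'⟩ := hE'.zz a ha _ hpr
      refine ⟨-(q * r - q' * r' + s - s'), ?_, ?_⟩
      · exact (SOR.Rl ℓ).neg_mem ((SOR.Rl ℓ).sub_mem ((SOR.Rl ℓ).add_mem ((SOR.Rl ℓ).sub_mem
          ((SOR.Rl ℓ).mul_mem hq hr) ((SOR.Rl ℓ).mul_mem hq' hr')) hs) hs')
      · rw [e, e']
        linear_combination (-1 : ℚ) * es + es' - ℓ * q * er + ℓ * q' * er')
  have e2 := GG_sub ℓ E₀ (fun v => ((ρ₁ v).val : ℤ)) (fun v => ((ρ₂ v).val : ℤ)) c d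
    (n₁ c d - n₁' c d) (n₁ c d - n₁' c d)
    (fun a => y₁ a (pr ℓ E₀ a c) d - y₁' a (pr ℓ E₀ a c) d)
    (fun b => y₁ b (pr ℓ E₀ b d) c - y₁' b (pr ℓ E₀ b d) c)
    (fun a => y₁ a (pr ℓ E₀ a c) d - y₁' a (pr ℓ E₀ a c) d)
    (fun b => y₁ b (pr ℓ E₀ b d) c - y₁' b (pr ℓ E₀ b d) c)
    (fun σ => d₁ (c * σ d) - d₁' (c * σ d))
    (fun σ => cS D.U c d σ (Subgroup.zpowers (c * σ d)) * d₁ (c * σ d) -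
        cS D'.U c d σ (Subgroup.zpowers (c * σ d)) * d₁' (c * σ d))
    (fun σ a => z₁ a 1 - z₁' a 1)
    (fun σ a => cS D.U c d σ a * z₁ a (pr ℓ E₀ a (c * σ d)) -
      cS D'.U c d σ a * z₁' a (pr ℓ E₀ a (c * σ d)))
  simp only [sub_self] at e2
  rw [e2] at key
  have h3 := (J2 ℓ).add_mem key hT
  rwa [sub_add_cancel] at h3

end Pool.Agent.PP.SE.H97
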