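import Pool.Agent.ASE.Stmts9
import Pool.Agent.Helper43_ASD.CBG

/-!
# Squad ASE, row SBG: the basic conditions for the comparison datum (helper97)
-/

open scoped BigOperators

noncomputable section

namespace Pool.Agent.PP.SE.H97

open Pool.Agent.Helper51_AWC Pool.Agent.Helper79_WRA Pool.Agent.PP Pool.Agent.PP.KF
open Pool.Agent.PP.K9 Pool.Agent.PP.K9.H97 Pool.Agent.PP.H75 Pool.Agent.PP.T3 Pool.Agent.PP.SO
open Pool.Agent.PP.SD

attribute [local instance] Ideal.Quotient.field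

section

variable {F V₀ S G : Type} [CommGroup V₀] [Group S] [Group G] [Field F] {φ : S →* MulAut V₀}
  {θ : S → F} {d : ℕ} {π : G →* V₀ ⋊[φ] S} {j : V₀ ⋊[φ] S →* G}

theorem CG_top : CG j ⊤ = Subgroup.centralizer ((iG j).range : Set G) := by
  unfold CG
  rw [← MonoidHom.range_eq_map]

theorem CG_anti {W W' : Subgroup V₀} (h : W ≤ W') : CG j W' ≤ CG j W := by
  intro x hx
  unfold CG at hx ⊢
  rw [Subgroup.mem_centralizer_iff] at hx ⊢
  rintro y ⟨w, hw, rfl⟩
  exact hx _ ⟨w, h hw, rfl⟩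

theorem b_pos (W : Subgroup V₀) {x : G} (hx : x ∈ CG j W) :
    (BG φ θ d π j).b W x = eR φ θ (π x) := if_pos hx

theorem b_neg (W : Subgroup V₀) {x : G} (hx : x ∉ CG j W) : (BG φ θ d π j).b W x = 0 := if_neg hx

theorem g_eq : (BG φ θ d π j).g = (BG φ θ d π j).b ⊤ := rfl

theorem b_res (W : Subgroup V₀) :
    (fun t : CG j W => (BG φ θ d π j).b W t) = fun t : CG j W => eR φ θ (π t) :=
  funext fun t => b_pos W t.2

/-- the Brauer construction of the local idempotents -/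
theorem br_b (W : Subgroup V₀) : br (iG j).range ((BG φ θ d π j).b W) = (BG φ θ d π j).g := by
  funext x
  rw [g_eq]
  by_cases hx : x ∈ Subgroup.centralizer ((iG j).range : Set G)
  · have h1 : x ∈ CG j ⊤ := by rw [CG_top]; exact hx
    rw [H66.br_of_mem hx, b_pos W (CG_anti le_top h1), b_pos ⊤ h1]
  · have h1 : x ∉ CG j ⊤ := by rw [CG_top]; exact hx
    rw [H66.br_of_not_mem hx, b_neg ⊤ h1]

theorem br_e : br (iG j).range (BG φ θ d π j).e = (BG φ θ d π j).g := by
  funext x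
  rw [g_eq]
  by_cases hx : x ∈ Subgroup.centralizer ((iG j).range : Set G)
  · have h1 : x ∈ CG j ⊤ := by rw [CG_top]; exact hx
    rw [H66.br_of_mem hx, b_pos ⊤ h1]
    rfl
  · have h1 : x ∉ CG j ⊤ := by rw [CG_top]; exact hx
    rw [H66.br_of_not_mem hx, b_neg ⊤ h1]

end

/-- SBG -/
theorem sbg (cen : CenStmt) (blg : BlgStmt) (tpg : TpgStmt) : SbgStmt := by
  intro ℓ _ M _ hM V₀ S G _ _ _ _ _ _ φ θ κ d π j hq hT hC
  obtain ⟨hinj, -, hconj, hW⟩ := cen ℓ V₀ S G φ π j hq hC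
  obtain ⟨hblk, -, hloc⟩ := blg ℓ M hM V₀ S G φ θ κ d π j hq hT hC
  have htp := tpg ℓ M hM V₀ S G φ θ κ d π j hq hT hC
  have hb : ∀ W : Subgroup V₀, Bx (CG j W) ((BG φ θ d π j).b W) := by
    intro W
    obtain ⟨-, -, h3, h4, -, -, h7, -⟩ := hW W
    refine ⟨fun x hx => b_neg W hx, ?_⟩
    rw [b_res]
    exact (hloc (CG j W) h4 _ h7 h3).1
  have hg : Bx (Subgroup.centralizer ((iG j).range : Set G)) (BG φ θ d π j).g := by
    have h1 := hb ⊤
    rw [CG_top] at h1
    exact h1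
  have hgg : mulF (BG φ θ d π j).g (BG φ θ d π j).g = (BG φ θ d π j).g := hg.ix.mul
  refine ⟨hinj, ⟨hblk, htp, ?_, hg, ?_⟩, ?_, ?_, ?_⟩
  · rintro _ ⟨v, rfl⟩ _ ⟨w, rfl⟩
    rw [← map_mul, mul_comm, map_mul]
  · change mulF (br (iG j).range (BG φ θ d π j).e) (BG φ θ d π j).g = (BG φ θ d π j).g
    rw [br_e, hgg]
  · intro t ht
    refine ⟨φ (π t).right, ⟨_, rfl⟩, fun v => ?_⟩
    have h1 : t ∈ Subgroup.normalizer ((iG j).range : Set G) := ht.1
    rw [Subgroup.mem_normalizer_iff] at h1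
    obtain ⟨v', hv'⟩ := (h1 (iG j v)).1 ⟨v, rfl⟩
    change t * iG j v * t⁻¹ = iG j (φ (π t).right v)
    rw [← hv']
    congr 1
    have h2 := congrArg π hv'
    rw [map_mul, map_mul, map_inv] at h2
    have h3 : ∀ w, π (iG j w) = SemidirectProduct.inl w := fun w => hC.sec _
    rw [h3, h3] at h2
    have h4 := congrArg SemidirectProduct.left h2
    rw [SemidirectProduct.left_inl] at h4
    rw [h4]
    simp [SemidirectProduct.mul_left, SemidirectProduct.inv_left]
  · rintro σ ⟨s, rfl⟩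
    have hc : ∀ v, j (SemidirectProduct.inr s) * iG j v * (j (SemidirectProduct.inr s))⁻¹ =
        iG j (φ s v) := fun v => hconj (SemidirectProduct.inr s) v
    have hn : j (SemidirectProduct.inr s) ∈ Subgroup.normalizer ((iG j).range : Set G) := by
      rw [Subgroup.mem_normalizer_iff]
      intro x
      constructor
      · rintro ⟨v, rfl⟩
        rw [hc]
        exact ⟨_, rfl⟩
      · rintro ⟨w, hw⟩
        refine ⟨(φ s)⁻¹ w, ?_⟩
        have h1 := hc ((φ s)⁻¹ w)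
        have h2 : φ s ((φ s)⁻¹ w) = w := (φ s).apply_symm_apply w
        rw [h2, hw] at h1
        exact mul_left_cancel (mul_right_cancel h1)
    refine ⟨j (SemidirectProduct.inr s), ⟨hn, ?_⟩, hc⟩
    intro x
    have hcn : ∀ t ∈ Subgroup.normalizer ((iG j).range : Set G), ∀ x ∈ CG j ⊤,
        t * x * t⁻¹ ∈ CG j ⊤ := by
      intro t ht x hx
      rw [CG_top, Subgroup.mem_centralizer_iff] at hx ⊢
      intro y hy
      have h1 := (Subgroup.mem_normalizer_iff.1 (Subgroup.inv_mem _ ht) y).1 hy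
      rw [inv_inv] at h1
      have h2 := hx _ h1
      have h3 : t * (t⁻¹ * y * t * x) * t⁻¹ = t * (x * (t⁻¹ * y * t)) * t⁻¹ := by rw [h2]
      calc y * (t * x * t⁻¹) = t * (t⁻¹ * y * t * x) * t⁻¹ := by group
        _ = t * (x * (t⁻¹ * y * t)) * t⁻¹ := h3
        _ = t * x * t⁻¹ * y := by group
    change (BG φ θ d π j).b ⊤ _ = (BG φ θ d π j).b ⊤ _
    by_cases hx : x ∈ CG j ⊤
    · rw [b_pos ⊤ hx, b_pos ⊤ (hcn _ hn x hx)]
      exact hblk.1.1 _ _
    · rw [b_neg ⊤ hx, b_neg ⊤]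
      intro h
      apply hx
      have h1 := hcn _ (Subgroup.inv_mem _ hn) _ h
      have e : (j (SemidirectProduct.inr s))⁻¹ * (j (SemidirectProduct.inr s) * x *
          (j (SemidirectProduct.inr s))⁻¹) * (j (SemidirectProduct.inr s))⁻¹⁻¹ = x := by group
      rwa [e] at h1
  · intro W
    have h1 : (fun t : CG j W => (BG φ θ d π j).e t) =
        fun t : CG j W => (BG φ θ d π j).b W t := (b_res W).symm
    refine ⟨hb W, ?_, ?_⟩
    · change mulF (fun t : CG j W => (BG φ θ d π j).e t)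
        (fun t : CG j W => (BG φ θ d π j).b W t) = fun t : CG j W => (BG φ θ d π j).b W t
      rw [h1]
      exact (hb W).blk.1.2
    · change mulF (br (iG j).range ((BG φ θ d π j).b W)) (BG φ θ d π j).g = (BG φ θ d π j).g
      rw [br_b, hgg]

end Pool.Agent.PP.SE.H97
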